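import Mathlib

/-! [LINA] of project QU (helper43): the computation at the cusp `z = 1`. -/

namespace Pool.Agent.L7h91.QU

open Polynomial

section alg
variable {R : Type*} [CommRing R]

/-- first step: one derivative -/
theorem step1 {X u B B' Bn Bn' G0 N1 N1' M M' H H' Xk Xk' K n : R}
    (hBn : B * Bn' = n * Bn * B') (hXk : X * Xk' = K * Xk)
    (hG : Xk * H = Bn * (G0 * B + u ^ 3 * N1) + u ^ 6 * M)
    (hG' : Xk' * H + Xk * H' = Bn' * (G0 * B + u ^ 3 * N1) +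
      Bn * (G0 * B' + (3 * u ^ 2 * N1 + u ^ 3 * N1')) + (6 * u ^ 5 * M + u ^ 6 * M')) :
    Xk * (B * (K * H + X * H') - (n + 1) * X * B' * H) =
      u ^ 2 * (X * (Bn * (3 * B * N1 + u * (B * N1' - B' * N1)) +
        u ^ 3 * (6 * B * M + u * (B * M' - (n + 1) * B' * M)))) := by
  linear_combination (X * B) * hG' - ((n + 1) * X * B') * hG - (B * H) * hXk +
    (X * (G0 * B + u ^ 3 * N1)) * hBn

/-- second step -/
theorem step2 {X u B B' Bn Bn' N N' M M' T T' Xk Xk' K n : R}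
    (hBn : B * Bn' = n * Bn * B') (hXk : X * Xk' = K * Xk)
    (hG : Xk * T = X * (Bn * N + u ^ 3 * M))
    (hG' : Xk' * T + Xk * T' = (Bn * N + u ^ 3 * M) + X * (Bn' * N + Bn * N' +
      (3 * u ^ 2 * M + u ^ 3 * M'))) :
    Xk * (B * (K * T + X * T') - (B + n * X * B') * T) =
      X ^ 2 * (Bn * B * N') + u ^ 2 * (X ^ 2 * (B * (3 * M + u * M') - n * B' * (u * M))) := by
  linear_combination (X * B) * hG' - (B + n * X * B') * hG - (B * T) * hXk +
    (X ^ 2 * N) * hBn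

/-- a coefficient -/
def t0 (k e : R) (h : Fin 5 → R) : R :=
  8 * e * h 0 + 3 * h 0 * k + 3 * h 1

/-- a coefficient -/
def t1 (k e : R) (h : Fin 5 → R) : R :=
  4 * e * h 0 + 8 * e * h 1 - 8 * h 0 * k + 3 * h 1 * k - 5 * h 1 + 6 * h 2

/-- a coefficient -/
def t2 (k e : R) (h : Fin 5 → R) : R :=
  -28 * e * h 0 + 4 * e * h 1 + 8 * e * h 2 + 2 * h 0 * k - 8 * h 1 * k + 3 * h 2 * k - 6 * h 1 - 10 * h 2 + 9 * h 3

/-- a coefficient -/
def t3 (k e : R) (h : Fin 5 → R) : R :=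
  -4 * e * h 0 - 28 * e * h 1 + 4 * e * h 2 + 8 * e * h 3 + 8 * h 0 * k + 2 * h 1 * k - 8 * h 2 * k + 3 * h 3 * k + 10 * h 1 - 12 * h 2 - 15 * h 3 + 12 * h 4

/-- a coefficient -/
def t4 (k e : R) (h : Fin 5 → R) : R :=
  20 * e * h 0 - 4 * e * h 1 - 28 * e * h 2 + 4 * e * h 3 + 8 * e * h 4 - 5 * h 0 * k + 8 * h 1 * k + 2 * h 2 * k - 8 * h 3 * k + 3 * h 4 * k + 3 * h 1 + 20 * h 2 - 18 * h 3 - 20 * h 4

/-- a coefficient -/
def t5 (k e : R) (h : Fin 5 → R) : R :=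
  20 * e * h 1 - 4 * e * h 2 - 28 * e * h 3 + 4 * e * h 4 - 5 * h 1 * k + 8 * h 2 * k + 2 * h 3 * k - 8 * h 4 * k - 5 * h 1 + 6 * h 2 + 30 * h 3 - 24 * h 4

/-- a coefficient -/
def t6 (k e : R) (h : Fin 5 → R) : R :=
  20 * e * h 2 - 4 * e * h 3 - 28 * e * h 4 - 5 * h 2 * k + 8 * h 3 * k + 2 * h 4 * k - 10 * h 2 + 9 * h 3 + 40 * h 4

/-- a coefficient -/
def t7 (k e : R) (h : Fin 5 → R) : R :=
  20 * e * h 3 - 4 * e * h 4 - 5 * h 3 * k + 8 * h 4 * k - 15 * h 3 + 12 * h 4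

/-- a coefficient -/
def t8 (k e : R) (h : Fin 5 → R) : R :=
  20 * e * h 4 - 5 * h 4 * k - 20 * h 4


theorem T1_eq (k e u : R) (h : Fin 5 → R) :
    (3 - 8 * u + 2 * u ^ 2 + 8 * u ^ 3 - 5 * u ^ 4) *
        (k * (h 0 + h 1 * u + h 2 * u ^ 2 + h 3 * u ^ 3 + h 4 * u ^ 4) +
          (u + 1) * (h 1 + 2 * h 2 * u + 3 * h 3 * u ^ 2 + 4 * h 4 * u ^ 3)) -
      e * (u + 1) * (-8 + 4 * u + 24 * u ^ 2 - 20 * u ^ 3) *
        (h 0 + h 1 * u + h 2 * u ^ 2 + h 3 * u ^ 3 + h 4 * u ^ 4) =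
      t0 k e h + t1 k e h * u + u ^ 2 * (t2 k e h + t3 k e h * u + t4 k e h * u ^ 2 +
        u ^ 3 * (t5 k e h + t6 k e h * u + t7 k e h * u ^ 2 + t8 k e h * u ^ 3)) := by
  unfold t0 t1 t2 t3 t4 t5 t6 t7 t8
  ring

theorem map_t0 {S : Type*} [CommRing S] (φ : R →+* S) (k e : R) (h : Fin 5 → R) :
    φ (t0 k e h) = t0 (φ k) (φ e) (fun j => φ (h j)) := by
  unfold t0
  simp only [map_add, map_sub, map_mul, map_neg, map_ofNat]

theorem map_t1 {S : Type*} [CommRing S] (φ : R →+* S) (k e : R) (h : Fin 5 → R) :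
    φ (t1 k e h) = t1 (φ k) (φ e) (fun j => φ (h j)) := by
  unfold t1
  simp only [map_add, map_sub, map_mul, map_neg, map_ofNat]

theorem map_t2 {S : Type*} [CommRing S] (φ : R →+* S) (k e : R) (h : Fin 5 → R) :
    φ (t2 k e h) = t2 (φ k) (φ e) (fun j => φ (h j)) := by
  unfold t2
  simp only [map_add, map_sub, map_mul, map_neg, map_ofNat]

theorem map_t3 {S : Type*} [CommRing S] (φ : R →+* S) (k e : R) (h : Fin 5 → R) :
    φ (t3 k e h) = t3 (φ k) (φ e) (fun j => φ (h j)) := by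
  unfold t3
  simp only [map_add, map_sub, map_mul, map_neg, map_ofNat]

theorem map_t4 {S : Type*} [CommRing S] (φ : R →+* S) (k e : R) (h : Fin 5 → R) :
    φ (t4 k e h) = t4 (φ k) (φ e) (fun j => φ (h j)) := by
  unfold t4
  simp only [map_add, map_sub, map_mul, map_neg, map_ofNat]

end alg


section
variable {F : Type} [Field F]

/-- the coordinate `B` of the quintic in the variable `X - 1` -/
noncomputable def Bp (F : Type) [Field F] : F[X] :=
  3 - 8 * (X - 1) + 2 * (X - 1) ^ 2 + 8 * (X - 1) ^ 3 - 5 * (X - 1) ^ 4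

/-- the derivative of `Bp` -/
noncomputable def Bp' (F : Type) [Field F] : F[X] :=
  -8 + 4 * (X - 1) + 24 * (X - 1) ^ 2 - 20 * (X - 1) ^ 3

theorem der_Bp : derivative (Bp F) = Bp' F := by
  unfold Bp Bp'
  simp only [derivative_sub, derivative_add, derivative_mul, derivative_pow, derivative_X,
    derivative_one, derivative_ofNat, map_ofNat, Nat.cast_ofNat]
  ring

theorem X_der_pow (k : ℕ) : (X : F[X]) * derivative (X ^ k) = (k : F[X]) * X ^ k := by
  rw [derivative_X_pow]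
  cases k with
  | zero => simp
  | succ k =>
    rw [Nat.add_sub_cancel, pow_succ]
    simp only [map_natCast]
    ring

theorem B_der_pow (B : F[X]) (n : ℕ) :
    B * derivative (B ^ n) = (n : F[X]) * B ^ n * derivative B := by
  rw [derivative_pow]
  cases n with
  | zero => simp
  | succ k =>
    rw [Nat.add_sub_cancel, pow_succ]
    simp only [map_natCast]
    ring

theorem copr (k : ℕ) : IsCoprime ((X - 1 : F[X]) ^ 2) (X ^ k) := by
  apply IsCoprime.pow
  refine ⟨-1, 1, by ring⟩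

theorem der_u : derivative (X - 1 : F[X]) = 1 := by simp

theorem der_u_pow (m : ℕ) : derivative ((X - 1 : F[X]) ^ (m + 1)) = ((m : F[X]) + 1) * (X - 1) ^ m := by
  rw [derivative_pow, der_u, Nat.add_sub_cancel, mul_one]
  simp

/-- the polynomial in front of the `(X - 1) ^ 3` -/
noncomputable def N1p (γ1 γ2 : F) : F[X] := -(C γ1 * (2 - X) ^ 2) - C γ2 * X

theorem core (k n : ℕ) (γ0 γ1 γ2 : F) (M : F[X]) (h : Fin 5 → F)
    (hG : (X : F[X]) ^ k * (C (h 0) + C (h 1) * (X - 1) + C (h 2) * (X - 1) ^ 2 +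
        C (h 3) * (X - 1) ^ 3 + C (h 4) * (X - 1) ^ 4) =
      Bp F ^ n * (C γ0 * Bp F + (X - 1) ^ 3 * N1p γ1 γ2) + (X - 1) ^ 6 * M) :
    t0 (k : F) (n + 1) h = 0 ∧ t1 (k : F) (n + 1) h = 0 ∧ ∃ W : F[X],
      X ^ k * (C (t2 (k : F) (n + 1) h) + C (t3 (k : F) (n + 1) h) * (X - 1) +
          C (t4 (k : F) (n + 1) h) * (X - 1) ^ 2 + (X - 1) ^ 3 * W) =
        X * (Bp F ^ n * (3 * Bp F * N1p γ1 γ2 + (X - 1) * (Bp F * derivative (N1p γ1 γ2) -
          Bp' F * N1p γ1 γ2)) + (X - 1) ^ 3 * (6 * Bp F * M + (X - 1) *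
            (Bp F * derivative M - ((n : F[X]) + 1) * Bp' F * M))) := by
  have hG' := congrArg derivative hG
  simp only [derivative_mul, derivative_add, derivative_C, zero_mul, zero_add] at hG'
  have hX := X_der_pow (F := F) k
  have hB := B_der_pow (Bp F) n
  rw [der_Bp] at hB hG'
  have h2 : derivative ((X - 1 : F[X]) ^ 2) = 2 * (X - 1) := by
    rw [der_u_pow 1]; push_cast; ring
  have h3 : derivative ((X - 1 : F[X]) ^ 3) = 3 * (X - 1) ^ 2 := by
    rw [der_u_pow 2]; push_cast; ring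
  have h4 : derivative ((X - 1 : F[X]) ^ 4) = 4 * (X - 1) ^ 3 := by
    rw [der_u_pow 3]; push_cast; ring
  have h6 : derivative ((X - 1 : F[X]) ^ 6) = 6 * (X - 1) ^ 5 := by
    rw [der_u_pow 5]; push_cast; ring
  rw [h2, h3, h4, h6, der_u] at hG'
  have key := step1 (X := (X : F[X])) (u := X - 1) (B := Bp F) (B' := Bp' F) (Bn := Bp F ^ n)
    (Bn' := derivative (Bp F ^ n)) (G0 := C γ0) (N1 := N1p γ1 γ2) (N1' := derivative (N1p γ1 γ2))
    (M := M) (M' := derivative M)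
    (H := C (h 0) + C (h 1) * (X - 1) + C (h 2) * (X - 1) ^ 2 + C (h 3) * (X - 1) ^ 3 +
      C (h 4) * (X - 1) ^ 4)
    (H' := C (h 1) + 2 * C (h 2) * (X - 1) + 3 * C (h 3) * (X - 1) ^ 2 + 4 * C (h 4) * (X - 1) ^ 3)
    (Xk := X ^ k) (Xk' := derivative (X ^ k)) (K := (k : F[X])) (n := (n : F[X])) hB hX hG
    (by linear_combination hG')
  have hT := T1_eq (k : F[X]) ((n : F[X]) + 1) (X - 1) (fun j => C (h j))
  have hx : (X - 1 + 1 : F[X]) = X := by ring
  rw [hx] at hT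
  obtain ⟨W, hW⟩ : ∃ W : F[X], W = t5 (k : F[X]) ((n : F[X]) + 1) (fun j => C (h j)) +
    t6 (k : F[X]) ((n : F[X]) + 1) (fun j => C (h j)) * (X - 1) +
    t7 (k : F[X]) ((n : F[X]) + 1) (fun j => C (h j)) * (X - 1) ^ 2 +
    t8 (k : F[X]) ((n : F[X]) + 1) (fun j => C (h j)) * (X - 1) ^ 3 := ⟨_, rfl⟩
  rw [← hW] at hT
  have hk : (k : F[X]) = C (k : F) := by simp
  have hn : (n : F[X]) + 1 = C ((n : F) + 1) := by simp
  have e0 : t0 (k : F[X]) ((n : F[X]) + 1) (fun j => C (h j)) = C (t0 (k : F) (n + 1) h) := by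
    rw [hk, hn, ← map_t0 C]
  have e1 : t1 (k : F[X]) ((n : F[X]) + 1) (fun j => C (h j)) = C (t1 (k : F) (n + 1) h) := by
    rw [hk, hn, ← map_t1 C]
  have e2 : t2 (k : F[X]) ((n : F[X]) + 1) (fun j => C (h j)) = C (t2 (k : F) (n + 1) h) := by
    rw [hk, hn, ← map_t2 C]
  have e3 : t3 (k : F[X]) ((n : F[X]) + 1) (fun j => C (h j)) = C (t3 (k : F) (n + 1) h) := by
    rw [hk, hn, ← map_t3 C]
  have e4 : t4 (k : F[X]) ((n : F[X]) + 1) (fun j => C (h j)) = C (t4 (k : F) (n + 1) h) := by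
    rw [hk, hn, ← map_t4 C]
  rw [e0, e1, e2, e3, e4] at hT
  have hB0 : Bp F = 3 - 8 * (X - 1) + 2 * (X - 1) ^ 2 + 8 * (X - 1) ^ 3 - 5 * (X - 1) ^ 4 := rfl
  have hB1 : Bp' F = -8 + 4 * (X - 1) + 24 * (X - 1) ^ 2 - 20 * (X - 1) ^ 3 := rfl
  rw [← hB0, ← hB1] at hT
  rw [hT] at key
  have hu : (X - 1 : F[X]) ≠ 0 := X_sub_C_ne_zero (1 : F)
  have hd : (X - 1 : F[X]) ^ 2 ∣ C (t0 (k : F) (n + 1) h) + C (t1 (k : F) (n + 1) h) * (X - 1) +
      (X - 1) ^ 2 * (C (t2 (k : F) (n + 1) h) + C (t3 (k : F) (n + 1) h) * (X - 1) +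
        C (t4 (k : F) (n + 1) h) * (X - 1) ^ 2 + (X - 1) ^ 3 * W) :=
    (copr k).dvd_of_dvd_mul_left (Dvd.intro _ key.symm)
  obtain ⟨T2, hT2⟩ := hd
  have a0 : t0 (k : F) (n + 1) h = 0 := by
    have := congrArg (eval 1) hT2
    simpa using this
  rw [a0] at hT2 key
  have hT3 : C (t1 (k : F) (n + 1) h) +
      (X - 1) * (C (t2 (k : F) (n + 1) h) + C (t3 (k : F) (n + 1) h) * (X - 1) +
        C (t4 (k : F) (n + 1) h) * (X - 1) ^ 2 + (X - 1) ^ 3 * W) = (X - 1) * T2 := by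
    apply mul_left_cancel₀ hu
    rw [map_zero] at hT2
    linear_combination hT2
  have a1 : t1 (k : F) (n + 1) h = 0 := by
    have := congrArg (eval 1) hT3
    simpa using this
  refine ⟨a0, a1, W, ?_⟩
  apply mul_left_cancel₀ (pow_ne_zero 2 hu)
  rw [a1, map_zero] at key
  linear_combination key

/-- the factor `N` -/
noncomputable def Np (γ1 γ2 : F) : F[X] :=
  3 * Bp F * N1p γ1 γ2 + (X - 1) * (Bp F * derivative (N1p γ1 γ2) - Bp' F * N1p γ1 γ2)

theorem ev_Bp : eval 1 (Bp F) = 3 := by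
  simp [Bp]

theorem ev_Bp' : eval 1 (Bp' F) = -8 := by
  simp [Bp']

/-- the second derivative of `Bp` -/
noncomputable def Bp'' (F : Type) [Field F] : F[X] := 4 + 48 * (X - 1) - 60 * (X - 1) ^ 2

theorem der_Bp' : derivative (Bp' F) = Bp'' F := by
  unfold Bp' Bp''
  simp only [derivative_sub, derivative_add, derivative_neg, derivative_mul, derivative_pow,
    derivative_X, derivative_one, derivative_ofNat, map_ofNat, Nat.cast_ofNat]
  ring

theorem ev_Bp'' : eval 1 (Bp'' F) = 4 := by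
  simp [Bp'']

theorem der_N1p (γ1 γ2 : F) : derivative (N1p γ1 γ2) = 2 * C γ1 * (2 - X) - C γ2 := by
  unfold N1p
  simp only [derivative_sub, derivative_neg, derivative_mul, derivative_pow, derivative_X,
    derivative_C, derivative_ofNat, map_ofNat, Nat.cast_ofNat]
  ring

theorem ev_N1p (γ1 γ2 : F) : eval 1 (N1p γ1 γ2) = -γ1 - γ2 := by
  simp [N1p]
  ring

theorem ev_Np (γ1 γ2 : F) : eval 1 (Np γ1 γ2) = -9 * (γ1 + γ2) := by
  simp only [Np, eval_add, eval_mul, eval_sub, eval_X, eval_one, eval_ofNat, ev_Bp, ev_N1p]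
  ring

theorem der_Np (γ1 γ2 : F) : derivative (Np γ1 γ2) = 3 * Bp' F * N1p γ1 γ2 +
    3 * Bp F * (2 * C γ1 * (2 - X) - C γ2) + (Bp F * (2 * C γ1 * (2 - X) - C γ2) -
      Bp' F * N1p γ1 γ2) + (X - 1) * (-2 * Bp F * C γ1 - Bp'' F * N1p γ1 γ2) := by
  unfold Np
  rw [der_N1p]
  simp only [derivative_sub, derivative_add, derivative_mul, derivative_X, derivative_one,
    derivative_ofNat, derivative_C, der_Bp, der_Bp', der_N1p]
  ring

theorem ev_Np' (γ1 γ2 : F) : eval 1 (derivative (Np γ1 γ2)) = 40 * γ1 + 4 * γ2 := by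
  rw [der_Np]
  simp only [eval_add, eval_mul, eval_sub, eval_X, eval_one, eval_ofNat, eval_C, ev_Bp, ev_Bp',
    ev_N1p]
  ring

theorem ev_Np'' (γ1 γ2 : F) : eval 1 (derivative (derivative (Np γ1 γ2))) = -130 * γ1 + 44 * γ2 := by
  rw [der_Np]
  simp only [derivative_sub, derivative_add, derivative_mul, derivative_X, derivative_one,
    derivative_ofNat, derivative_C, derivative_neg, der_Bp, der_Bp', der_N1p, eval_neg,
    eval_add, eval_mul, eval_sub, eval_X, eval_one, eval_ofNat, eval_C, ev_Bp, ev_Bp', ev_Bp'',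
    ev_N1p, eval_zero]
  ring

/-- the three linear equations -/
theorem core2 (k n : ℕ) (γ1 γ2 : F) (W P : F[X]) (a2 a3 a4 : F)
    (h1 : X ^ k * (C a2 + C a3 * (X - 1) + C a4 * (X - 1) ^ 2 + (X - 1) ^ 3 * W) =
        X * (Bp F ^ n * Np γ1 γ2 + (X - 1) ^ 3 * P)) :
    a2 = 3 ^ n * (-9 * (γ1 + γ2)) ∧
    3 * (k * a2 + a3) - (3 - 8 * n) * a2 = 3 ^ (n + 1) * (40 * γ1 + 4 * γ2) ∧
    k * (3 * (k * a2 + a3) - (3 - 8 * n) * a2) +
      (-8 * (k * a2 + a3) + 3 * (k * a3 + a3 + 2 * a4) - (-8 - 8 * n + 4 * n) * a2 -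
        (3 - 8 * n) * a3) =
      (2 * 3 ^ (n + 1) - 8 * (n + 1) * 3 ^ n) * (40 * γ1 + 4 * γ2) +
        3 ^ (n + 1) * (-130 * γ1 + 44 * γ2) := by
  have hX := X_der_pow (F := F) k
  have hB := B_der_pow (Bp F) n
  rw [der_Bp] at hB
  have h2 : derivative ((X - 1 : F[X]) ^ 2) = 2 * (X - 1) := by
    rw [der_u_pow 1]; push_cast; ring
  have h3 : derivative ((X - 1 : F[X]) ^ 3) = 3 * (X - 1) ^ 2 := by
    rw [der_u_pow 2]; push_cast; ring
  obtain ⟨T, hT⟩ : ∃ T : F[X], T = C a2 + C a3 * (X - 1) + C a4 * (X - 1) ^ 2 +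
    (X - 1) ^ 3 * W := ⟨_, rfl⟩
  have hT' : derivative T = C a3 + 2 * C a4 * (X - 1) + (3 * (X - 1) ^ 2 * W +
      (X - 1) ^ 3 * derivative W) := by
    rw [hT]
    simp only [derivative_add, derivative_mul, derivative_C, h2, h3, der_u]
    ring
  have hT'' : eval 1 (derivative (derivative T)) = 2 * a4 := by
    rw [hT']
    simp only [derivative_add, derivative_mul, derivative_C, derivative_ofNat, h2, h3, der_u,
      eval_add, eval_mul, eval_sub, eval_X, eval_one, eval_ofNat, eval_C, eval_pow, eval_zero]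
    ring
  have eT : eval 1 T = a2 := by
    rw [hT]
    simp
  have eT' : eval 1 (derivative T) = a3 := by
    rw [hT']
    simp
  rw [← hT] at h1
  have h1' := congrArg derivative h1
  simp only [derivative_mul, derivative_add, derivative_X, one_mul, h3] at h1'
  have key := step2 (X := (X : F[X])) (u := X - 1) (B := Bp F) (B' := Bp' F) (Bn := Bp F ^ n)
    (Bn' := derivative (Bp F ^ n)) (N := Np γ1 γ2) (N' := derivative (Np γ1 γ2)) (M := P)
    (M' := derivative P) (T := T) (T' := derivative T) (Xk := X ^ k)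
    (Xk' := derivative (X ^ k)) (K := (k : F[X])) (n := (n : F[X])) hB hX h1
    (by linear_combination h1')
  obtain ⟨U, hU⟩ : ∃ U : F[X], U = Bp F * ((k : F[X]) * T + X * derivative T) -
    (Bp F + (n : F[X]) * X * Bp' F) * T := ⟨_, rfl⟩
  obtain ⟨Y, hY⟩ : ∃ Y : F[X], Y = X ^ 2 * (Bp F * (3 * P + (X - 1) * derivative P) -
    (n : F[X]) * Bp' F * ((X - 1) * P)) := ⟨_, rfl⟩
  rw [← hU, ← hY] at key
  have eU : eval 1 U = 3 * (k * a2 + a3) - (3 - 8 * n) * a2 := by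
    rw [hU]
    simp only [eval_add, eval_mul, eval_sub, eval_X, eval_natCast, ev_Bp, ev_Bp', eT, eT']
    ring
  have eU' : eval 1 (derivative U) = -8 * (k * a2 + a3) + 3 * (k * a3 + a3 + 2 * a4) -
      (-8 - 8 * n + 4 * n) * a2 - (3 - 8 * n) * a3 := by
    rw [hU]
    simp only [derivative_sub, derivative_add, derivative_mul, derivative_X, derivative_natCast,
      der_Bp, der_Bp', eval_add, eval_mul, eval_sub, eval_X, eval_natCast, ev_Bp, ev_Bp', ev_Bp'',
      eT, eT', hT'', eval_zero, eval_one]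
    ring
  have eB : eval 1 (Bp F ^ n) = 3 ^ n := by rw [eval_pow, ev_Bp]
  have eXk : eval 1 ((X : F[X]) ^ k) = 1 := by simp
  have eXk' : eval 1 (derivative ((X : F[X]) ^ k)) = k := by
    have := congrArg (eval 1) hX
    simpa using this
  have eB' : 3 * eval 1 (derivative (Bp F ^ n)) = n * 3 ^ n * (-8) := by
    have := congrArg (eval 1) hB
    rwa [eval_mul, eval_mul, eval_mul, ev_Bp, ev_Bp', eval_natCast, eB] at this
  refine ⟨?_, ?_, ?_⟩
  · have := congrArg (eval 1) h1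
    simp only [eval_add, eval_mul, eval_sub, eval_X, eval_one, eXk, eB, eT, ev_Np, eval_pow] at this
    linear_combination this
  · have := congrArg (eval 1) key
    simp only [eval_add, eval_mul, eval_sub, eval_X, eval_one, eXk, eB, ev_Bp, eU, ev_Np',
      eval_pow] at this
    linear_combination this
  · have k2 := congrArg derivative key
    have eX2 : eval 1 (derivative ((X : F[X]) ^ 2)) = 2 := by
      simp only [derivative_X_pow, Nat.add_one_sub_one, pow_one, Nat.cast_ofNat, eval_mul, eval_X,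
        mul_one, map_ofNat, eval_ofNat]
    simp only [derivative_mul, derivative_add, h2, der_Bp] at k2
    have := congrArg (eval 1) k2
    simp only [eval_add, eval_mul, eval_sub, eval_X, eval_one, eXk, eXk', eX2, eB, ev_Bp, ev_Bp',
      eU, eU', ev_Np', ev_Np'', eval_pow, eval_ofNat] at this
    linear_combination this + (40 * γ1 + 4 * γ2) * eB'

end

end Pool.Agent.L7h91.QU
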