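import Pool.Agent.L7h43.QU.Stm
import Pool.Agent.L7h91.QU.Core

/-! [LINA] of project QU (helper43). -/

namespace Pool.Agent.L7h91.QU

open Polynomial Pool.Agent.L7h43.QU

variable {F : Type} [Field F]

theorem pt0_zero : pt0 F 0 = (X - 1) ^ 3 * (-(2 - X) ^ 2) := by
  unfold pt0
  rw [Pool.Agent.L7h52.NQ.vec_zero]
  unfold dD
  ring

theorem pt0_one : pt0 F 1 = (X - 1) ^ 3 * (-X) := by
  unfold pt0
  rw [Pool.Agent.L7h52.NQ.vec_one]
  unfold dA
  ring

theorem pt0_two : pt0 F 2 = Bp F := by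
  unfold pt0
  rw [Pool.Agent.L7h52.NQ.vec_two]
  unfold dB Bp
  ring

/-- the shape of the restriction of a form to the quintic near the cusp -/
def Good (n : ℕ) (G : F[X]) : Prop := ∃ (γ0 γ1 γ2 : F) (M : F[X]),
  G = Bp F ^ n * (C γ0 * Bp F + (X - 1) ^ 3 * N1p γ1 γ2) + (X - 1) ^ 6 * M

theorem good_add {n : ℕ} {G1 G2 : F[X]} (h1 : Good n G1) (h2 : Good n G2) : Good n (G1 + G2) := by
  obtain ⟨a0, a1, a2, M, h⟩ := h1
  obtain ⟨b0, b1, b2, M', h'⟩ := h2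
  refine ⟨a0 + b0, a1 + b1, a2 + b2, M + M', ?_⟩
  rw [h, h']
  unfold N1p
  simp only [C_add]
  ring

theorem good_mon {n : ℕ} (c : F) (a b m : ℕ) (h : a + b + m = n + 1) :
    Good n (C c * (((X - 1) ^ 3 * (-(2 - X) ^ 2)) ^ a * ((X - 1) ^ 3 * (-X)) ^ b * Bp F ^ m)) := by
  rcases Nat.lt_or_ge (a + b) 2 with hab | hab
  · rcases Nat.eq_zero_or_pos (a + b) with h0 | h0
    · have ha : a = 0 := by omega
      have hb : b = 0 := by omega
      have hm : m = n + 1 := by omega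
      subst ha hb hm
      refine ⟨c, 0, 0, 0, ?_⟩
      unfold N1p
      simp only [C_0]
      ring
    · rcases Nat.eq_zero_or_pos a with ha | ha
      · have hb : b = 1 := by omega
        have hm : m = n := by omega
        subst ha hb hm
        refine ⟨0, 0, c, 0, ?_⟩
        unfold N1p
        simp only [C_0]
        ring
      · have ha : a = 1 := by omega
        have hb : b = 0 := by omega
        have hm : m = n := by omega
        subst ha hb hm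
        refine ⟨0, c, 0, 0, ?_⟩
        unfold N1p
        simp only [C_0]
        ring
  · have hd : (X - 1 : F[X]) ^ 6 ∣ C c * (((X - 1) ^ 3 * (-(2 - X) ^ 2)) ^ a *
        ((X - 1) ^ 3 * (-X)) ^ b * Bp F ^ m) := by
      apply Dvd.dvd.mul_left
      apply Dvd.dvd.mul_right
      rw [mul_pow, mul_pow, ← pow_mul, ← pow_mul]
      have h6 : (X - 1 : F[X]) ^ 6 ∣ (X - 1) ^ (3 * a) * (X - 1) ^ (3 * b) := by
        rw [← pow_add]
        exact pow_dvd_pow _ (by omega)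
      refine h6.trans ?_
      refine ⟨(-(2 - X) ^ 2) ^ a * (-X) ^ b, ?_⟩
      ring
    obtain ⟨M, hM⟩ := hd
    refine ⟨0, 0, 0, M, ?_⟩
    rw [hM]
    unfold N1p
    simp only [C_0]
    ring

theorem good_pull {n : ℕ} (g : MvPolynomial (ZMod 3) F) (hg : g.IsHomogeneous (n + 1)) :
    Good n (pull g) := by
  unfold pull
  rw [MvPolynomial.aeval_def, MvPolynomial.eval₂_eq']
  apply Finset.sum_induction _ (Good n) (fun _ _ => good_add)
  · refine ⟨0, 0, 0, 0, ?_⟩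
    unfold N1p
    simp only [C_0]
    ring
  · intro α hα
    have hdeg := hg (MvPolynomial.mem_support_iff.1 hα)
    rw [Finsupp.weight_apply, Finsupp.sum_fintype _ _ (by simp)] at hdeg
    simp only [Pi.one_apply, smul_eq_mul, mul_one] at hdeg
    have e1 : ∑ i : ZMod 3, α i = α 0 + α 1 + α 2 := Fin.sum_univ_three α
    have e2 : ∏ i : ZMod 3, pt0 F i ^ α i = pt0 F 0 ^ α 0 * pt0 F 1 ^ α 1 * pt0 F 2 ^ α 2 :=
      Fin.prod_univ_three (fun i : ZMod 3 => pt0 F i ^ α i)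
    rw [e1] at hdeg
    rw [e2, pt0_zero, pt0_one, pt0_two]
    exact good_mon _ _ _ _ hdeg

theorem s_LINA : S_LINA := by
  intro F _ _ e k g h he hg hp
  obtain ⟨n, rfl⟩ : ∃ n, e = n + 1 := ⟨e - 1, by omega⟩
  obtain ⟨γ0, γ1, γ2, M, hG⟩ := good_pull g hg
  rw [hp, Fin.sum_univ_five] at hG
  have hG2 : (X : F[X]) ^ k * (C (h 0) + C (h 1) * (X - 1) + C (h 2) * (X - 1) ^ 2 +
        C (h 3) * (X - 1) ^ 3 + C (h 4) * (X - 1) ^ 4) =
      Bp F ^ n * (C γ0 * Bp F + (X - 1) ^ 3 * N1p γ1 γ2) + (X - 1) ^ 6 * M := by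
    rw [← hG]
    simp
  obtain ⟨h0, h1, W, hW⟩ := core k n γ0 γ1 γ2 M h hG2
  obtain ⟨f1, f2, f3⟩ := core2 k n γ1 γ2 W _ _ _ _ hW
  push_cast
  unfold t0 at h0
  unfold t1 at h1
  refine ⟨⟨?_, ?_⟩, ?_⟩
  · linear_combination h0
  · linear_combination 3 * h1 + (8 * ((n : F) + 1) + 3 * k + 5) * h0
  · unfold Eq3
    unfold t2 at f1
    unfold t2 t3 at f2
    unfold t2 t3 t4 at f3
    linear_combination 6840 * f1 + 54 * (17 + 16 * ((n : F) + 1)) * f2 + 324 * f3 +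
      (2592 * ((n : F) + 1) * (k : F) ^ 2 + 6912 * ((n : F) + 1) ^ 2 * (k : F) + 6144 * ((n :
      F) + 1) ^ 3 + 324 * (k : F) ^ 3 - 3456 * ((n : F) + 1) * (k : F) + 6336 * ((n : F) + 1)
      ^ 2 - 2187 * (k : F) ^ 2 - 8604 * ((n : F) + 1) - 99 * (k : F) - 14610) * h1 +
      (864 * ((n : F) + 1) * (k : F) ^ 3 + 3456 * ((n : F) + 1) ^ 2 * (k : F) ^ 2 + 6144 * ((n
      : F) + 1) ^ 3 * (k : F) + 4096 * ((n : F) + 1) ^ 4 + 81 * (k : F) ^ 4 - 3024 * ((n : F)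
      + 1) * (k : F) ^ 2 + 2880 * ((n : F) + 1) ^ 2 * (k : F) + 12288 * ((n : F) + 1) ^ 3 -
      891 * (k : F) ^ 3 - 6444 * ((n : F) + 1) * (k : F) - 7856 * ((n : F) + 1) ^ 2 + 1125 *
      (k : F) ^ 2 - 43980 * ((n : F) + 1) - 14925 * (k : F) - 22118) * h0

end Pool.Agent.L7h91.QU
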